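import Mathlib

/-!
# Edge marginals of uniform connected subgraphs of fixed excess can drop from nearly one to nearly zero

Q1 of MP_7fb2f0_pr asks whether `p_e(k)` is nondecreasing in the excess `k`. The earlier library results refute
this by single graphs on 10 or 11 vertices, at `k = -1`, with `p_e(-1) - p_e(0) < 0.005`. Here the failure is
shown in the strongest possible size (`drop`) and at nearly all steps (`decreasing`).

The graph `neck m N` is a necklace: hubs `0, …, m`, for each `i < m` there are `N` vertices joined to the hubs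
`i` and `i + 1`, and the closing edge `e` joins the hubs `0` and `m`. A spanning subgraph without `e` is
connected iff every middle vertex keeps an edge and every block has a vertex that keeps both; with `e` one block
may fail the latter. With `H = (2X + X²)^N - (2X)^N` the generating functions (by the number of edges) are
`H ^ m` without `e` and `X (H ^ m + m (2X)^N H ^ (m - 1))` with `e`. The ratio at `x` is an average of the odds of
`e` at the different excesses; it is at least `2m / N` at the lowest excess and less than `ε` at `x = ε / 2` if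
`m + 1 < (1 + ε / 4) ^ N`. For `N = 2` the odds are `(m - j) + 4 j / (m - j + 1)` at the excess `j - 1`.
-/

set_option autoImplicit false

namespace Pool.Agent.H74.Neck

open SimpleGraph Finset

/-! ### The marginals -/

/-- The edge sets of the connected spanning subgraphs of `G` with excess `k`, that is, with `|V| + k` edges. -/
def conn {V : Type} [Fintype V] (G : SimpleGraph V) (k : ℤ) : Set (Set (Sym2 V)) :=
  {F | F ⊆ G.edgeSet ∧ (fromEdgeSet F).Connected ∧ (F.ncard : ℤ) = Fintype.card V + k}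

/-- The probability `p_e(k)` that `e` is an edge of the uniform connected spanning subgraph with excess `k`. -/
noncomputable def marg {V : Type} [Fintype V] (G : SimpleGraph V) (k : ℤ) (e : Sym2 V) : ℝ :=
  ({F | F ∈ conn G k ∧ e ∈ F}.ncard : ℝ) / ((conn G k).ncard : ℝ)

/-! ### The graph -/

/-- The vertices: hubs `0, …, m` and, for each `i < m`, `N` further vertices. -/
abbrev VV (m N : ℕ) : Type := Fin (m + 1) ⊕ (Fin m × Fin N)

/-- The names of the edges. -/
abbrev II (m N : ℕ) : Type := Option ((Fin m × Fin N) × Bool)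

/-- The edges: the closing edge from hub `0` to hub `m`, and the two edges from the `l`-th vertex of the `i`-th
block to the hubs `i` and `i + 1`. -/
def ed (m N : ℕ) : II m N → Sym2 (VV m N)
  | none => s(.inl 0, .inl (Fin.last m))
  | some (il, false) => s(.inr il, .inl il.1.castSucc)
  | some (il, true) => s(.inr il, .inl il.1.succ)

/-- The necklace. -/
def neck (m N : ℕ) : SimpleGraph (VV m N) := fromEdgeSet (Set.range (ed m N))

variable {m N : ℕ}

/-- The edges that are present in the state `(b, a)`. -/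
def on (b : Bool) (a : Fin m → Fin N → Bool × Bool) : II m N → Bool
  | none => b
  | some (il, false) => (a il.1 il.2).1
  | some (il, true) => (a il.1 il.2).2

/-- The edge set of the state `(b, a)`. -/
def Phi (x : Bool × (Fin m → Fin N → Bool × Bool)) : Set (Sym2 (VV m N)) :=
  ed m N '' {i | on x.1 x.2 i = true}

lemma ed_injective : Function.Injective (ed m N) := by
  rintro (_ | ⟨⟨i, l⟩, (_ | _)⟩) (_ | ⟨⟨i', l'⟩, (_ | _)⟩) h <;>
    simp only [ed, Sym2.eq_iff, Sum.inl.injEq, Sum.inr.injEq, reduceCtorEq, false_and, and_false, or_false,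
      Prod.mk.injEq] at h
  · rfl
  · obtain ⟨⟨rfl, rfl⟩, _⟩ := h; rfl
  · obtain ⟨⟨rfl, rfl⟩, h⟩ := h
    exact absurd h (by simp [Fin.ext_iff])
  · obtain ⟨⟨rfl, rfl⟩, h⟩ := h
    exact absurd h (by simp [Fin.ext_iff])
  · obtain ⟨⟨rfl, rfl⟩, _⟩ := h; rfl

lemma on_injective : Function.Injective (fun x : Bool × (Fin m → Fin N → Bool × Bool) => on x.1 x.2) := by
  rintro ⟨b, a⟩ ⟨b', a'⟩ h
  have h0 := congrFun h none
  have h1 : ∀ i l, (a i l).1 = (a' i l).1 := fun i l => congrFun h (some ((i, l), false))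
  have h2 : ∀ i l, (a i l).2 = (a' i l).2 := fun i l => congrFun h (some ((i, l), true))
  simp only [on] at h0
  subst h0
  congr 1
  funext i l
  exact Prod.ext (h1 i l) (h2 i l)

lemma Phi_injective : Function.Injective (Phi (m := m) (N := N)) := by
  intro x y h
  apply on_injective
  have h1 := ed_injective.image_injective h
  funext i
  have h2 : (i ∈ {i | on x.1 x.2 i = true}) ↔ (i ∈ {i | on y.1 y.2 i = true}) := by rw [h1]
  have h3 : on x.1 x.2 i = true ↔ on y.1 y.2 i = true := h2
  exact Bool.eq_iff_iff.2 h3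

lemma Phi_surj (F : Set (Sym2 (VV m N))) (hF : F ⊆ Set.range (ed m N)) : ∃ x, Phi x = F := by
  classical
  refine ⟨(decide (ed m N none ∈ F), fun i l =>
    (decide (ed m N (some ((i, l), false)) ∈ F), decide (ed m N (some ((i, l), true)) ∈ F))), ?_⟩
  have key : ∀ i, on (decide (ed m N none ∈ F)) (fun i l =>
      (decide (ed m N (some ((i, l), false)) ∈ F), decide (ed m N (some ((i, l), true)) ∈ F))) i = true ↔
      ed m N i ∈ F := by
    rintro (_ | ⟨⟨i, l⟩, (_ | _)⟩) <;> simp [on]
  ext x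
  unfold Phi
  constructor
  · rintro ⟨i, hi, rfl⟩
    exact (key i).1 hi
  · intro hx
    obtain ⟨i, rfl⟩ := hF hx
    exact ⟨i, (key i).2 hx, rfl⟩

lemma ed_not_diag (hm : 1 ≤ m) (i : II m N) : ¬ (ed m N i).IsDiag := by
  rcases i with _ | ⟨⟨i, l⟩, (_ | _)⟩ <;> simp only [ed, Sym2.mk_isDiag_iff] <;> intro h
  · have h1 := Sum.inl.inj h
    have h2 := congrArg Fin.val h1
    simp at h2
    omega
  · cases h
  · cases h

lemma neck_edgeSet (hm : 1 ≤ m) : (neck m N).edgeSet = Set.range (ed m N) := by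
  unfold neck
  rw [edgeSet_fromEdgeSet]
  ext x
  constructor
  · exact fun h => h.1
  · rintro ⟨i, rfl⟩
    exact ⟨⟨i, rfl⟩, fun h => ed_not_diag hm i h⟩

/-- The number of open edges in a block. -/
def bsize (t : Fin N → Bool × Bool) : ℕ := ∑ l, ((t l).1.toNat + (t l).2.toNat)

/-- The number of open edges in all blocks. -/
def size (a : Fin m → Fin N → Bool × Bool) : ℕ := ∑ i, bsize (a i)

lemma Phi_ncard (x : Bool × (Fin m → Fin N → Bool × Bool)) : (Phi x).ncard = x.1.toNat + size x.2 := by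
  classical
  unfold Phi
  rw [Set.ncard_image_of_injective _ ed_injective]
  have h1 : {i | on x.1 x.2 i = true} = ((Finset.univ.filter (fun i => on x.1 x.2 i = true) :
      Finset (II m N)) : Set (II m N)) := by
    ext i; simp
  rw [h1, Set.ncard_coe_finset, Finset.card_filter, Fintype.sum_option, Fintype.sum_prod_type,
    Fintype.sum_prod_type]
  have h2 : ∀ b : Bool, (if b = true then 1 else 0 : ℕ) = b.toNat := by
    intro b; cases b <;> rfl
  unfold size bsize
  congr 1
  · exact h2 _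
  · refine Finset.sum_congr rfl fun i _ => Finset.sum_congr rfl fun l _ => ?_
    rw [Fintype.sum_bool]
    simp only [on]
    by_cases hp : (x.2 i l).1 = true <;> by_cases hq : (x.2 i l).2 = true <;> simp [hp, hq]

/-! ### Connectedness -/

/-- A block is hit if one of its vertices has both edges. -/
def hit (t : Fin N → Bool × Bool) : Prop := ∃ l, (t l).1 = true ∧ (t l).2 = true

/-- The condition for connectedness. -/
def ok (b : Bool) (a : Fin m → Fin N → Bool × Bool) : Prop :=
  (∀ i l, (a i l).1 = true ∨ (a i l).2 = true) ∧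
    (b = true → ∀ i j, ¬ hit (a i) → ¬ hit (a j) → i = j) ∧ (b = false → ∀ i, hit (a i))

lemma closed_all {V : Type} {H : SimpleGraph V} (hH : H.Connected) (S : V → Prop)
    (hS : ∀ u v, H.Adj u v → (S u ↔ S v)) (u v : V) (hu : S u) : S v := by
  obtain ⟨w⟩ := hH.preconnected u v
  induction w with
  | nil => exact hu
  | cons h p ih => exact ih ((hS _ _ h).1 hu)

lemma closed_Phi (x : Bool × (Fin m → Fin N → Bool × Bool)) (S : VV m N → Prop)
    (h0 : x.1 = true → (S (.inl 0) ↔ S (.inl (Fin.last m))))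
    (h1 : ∀ i l, (x.2 i l).1 = true → (S (.inr (i, l)) ↔ S (.inl i.castSucc)))
    (h2 : ∀ i l, (x.2 i l).2 = true → (S (.inr (i, l)) ↔ S (.inl i.succ))) :
    ∀ u v, (fromEdgeSet (Phi x)).Adj u v → (S u ↔ S v) := by
  intro u v h
  rw [fromEdgeSet_adj] at h
  obtain ⟨⟨i, hi, he⟩, -⟩ := h
  rcases i with _ | ⟨⟨i, l⟩, (_ | _)⟩ <;> simp only [ed, Sym2.eq_iff] at he <;>
    obtain ⟨rfl, rfl⟩ | ⟨rfl, rfl⟩ := he
  · exact h0 hi
  · exact (h0 hi).symm
  · exact h1 i l hi
  · exact (h1 i l hi).symm
  · exact h2 i l hi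
  · exact (h2 i l hi).symm

lemma conn_ok (x : Bool × (Fin m → Fin N → Bool × Bool))
    (hx : (fromEdgeSet (Phi x)).Connected) : ok x.1 x.2 := by
  obtain ⟨b, a⟩ := x
  refine ⟨?_, ?_, ?_⟩
  · intro i l
    by_contra hcon
    push Not at hcon
    have h := closed_all hx (fun v => v = .inr (i, l)) (closed_Phi (b, a) _ (by simp) (by
      intro i' l' h1
      constructor
      · intro h2
        have h3 := Sum.inr.inj h2
        obtain ⟨rfl, rfl⟩ := Prod.mk.inj h3
        exact absurd h1 hcon.1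
      · intro h2; cases h2) (by
      intro i' l' h1
      constructor
      · intro h2
        have h3 := Sum.inr.inj h2
        obtain ⟨rfl, rfl⟩ := Prod.mk.inj h3
        exact absurd h1 hcon.2
      · intro h2; cases h2)) (.inr (i, l)) (.inl 0) rfl
    cases h
  · intro hb
    have key : ∀ i j : Fin m, i < j → ¬ hit (a i) → ¬ hit (a j) → False := by
      intro i j hij hi hj
      let S : VV m N → Prop := fun v => match v with
        | .inl h => (i : ℕ) < h ∧ (h : ℕ) ≤ j
        | .inr (t, l) => (i < t ∧ t < j) ∨ (t = i ∧ (a i l).2 = true) ∨ (t = j ∧ (a j l).1 = true)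
      have h := closed_all hx S (closed_Phi (b, a) _ (by
          intro _
          have := j.2
          simp [S]) (by
          intro t l h1
          simp only [S, Fin.val_castSucc]
          constructor
          · rintro (h | ⟨rfl, h⟩ | ⟨rfl, h⟩)
            · exact ⟨h.1, h.2.le⟩
            · exact absurd ⟨l, h1, h⟩ hi
            · exact ⟨hij, le_rfl⟩
          · rintro ⟨h3, h4⟩
            rcases lt_or_eq_of_le h4 with h5 | h5
            · exact Or.inl ⟨h3, h5⟩
            · have h6 : t = j := Fin.ext h5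
              subst h6
              exact Or.inr (Or.inr ⟨rfl, h1⟩)) (by
          intro t l h1
          simp only [S, Fin.val_succ]
          constructor
          · rintro (h | ⟨rfl, h⟩ | ⟨rfl, h⟩)
            · have h3 : (i : ℕ) < t := h.1
              have h4 : (t : ℕ) < j := h.2
              omega
            · have h4 : (t : ℕ) < j := hij
              omega
            · exact absurd ⟨l, h, h1⟩ hj
          · rintro ⟨h3, h4⟩
            rcases lt_or_eq_of_le (Nat.lt_succ_iff.1 h3) with h5 | h5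
            · exact Or.inl ⟨h5, h4⟩
            · have h6 : i = t := Fin.ext h5
              subst h6
              exact Or.inr (Or.inl ⟨rfl, h1⟩))) (.inl i.succ) (.inl 0) (by
            have h4 : (i : ℕ) < j := hij
            simp only [S, Fin.val_succ]
            omega)
      simp [S] at h
    intro i j hi hj
    rcases lt_trichotomy i j with h | h | h
    · exact absurd (key i j h hi hj) not_false
    · exact h
    · exact absurd (key j i h hj hi) not_false
  · intro hb i
    by_contra hi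
    let S : VV m N → Prop := fun v => match v with
      | .inl h => (h : ℕ) ≤ i
      | .inr (t, l) => t < i ∨ (t = i ∧ (a i l).1 = true)
    have h := closed_all hx S (closed_Phi (b, a) _ (by
        intro h
        simp only at hb h
        rw [hb] at h
        cases h) (by
        intro t l h1
        simp only [S, Fin.val_castSucc]
        constructor
        · rintro (h | ⟨rfl, h⟩)
          · exact le_of_lt h
          · exact le_rfl
        · intro h4
          rcases lt_or_eq_of_le h4 with h5 | h5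
          · exact Or.inl h5
          · have h6 : t = i := Fin.ext h5
            subst h6
            exact Or.inr ⟨rfl, h1⟩) (by
        intro t l h1
        simp only [S, Fin.val_succ]
        constructor
        · rintro (h | ⟨rfl, h⟩)
          · exact h
          · exact absurd ⟨l, h, h1⟩ hi
        · intro h4
          exact Or.inl h4)) (.inl 0) (.inl (Fin.last m)) (by simp [S])
    have := i.2
    simp [S] at h
    omega

lemma ok_conn (hm : 1 ≤ m) (x : Bool × (Fin m → Fin N → Bool × Bool))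
    (hx : ok x.1 x.2) : (fromEdgeSet (Phi x)).Connected := by
  obtain ⟨b, a⟩ := x
  obtain ⟨hn, h1, h0⟩ := hx
  simp only at hn h1 h0
  have hadj : ∀ i, on b a i = true → ∀ u v, ed m N i = s(u, v) →
      (fromEdgeSet (Phi (b, a))).Adj u v := by
    intro i hi u v he
    rw [fromEdgeSet_adj]
    refine ⟨⟨i, hi, he⟩, ?_⟩
    intro huv
    apply ed_not_diag hm i
    rw [he, huv]
    simp
  have adjL : ∀ i l, (a i l).1 = true → (fromEdgeSet (Phi (b, a))).Adj (.inr (i, l)) (.inl i.castSucc) :=
    fun i l h => hadj (some ((i, l), false)) h _ _ rfl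
  have adjR : ∀ i l, (a i l).2 = true → (fromEdgeSet (Phi (b, a))).Adj (.inr (i, l)) (.inl i.succ) :=
    fun i l h => hadj (some ((i, l), true)) h _ _ rfl
  have adjE : b = true → (fromEdgeSet (Phi (b, a))).Adj (.inl 0) (.inl (Fin.last m)) :=
    fun h => hadj none h _ _ rfl
  have step : ∀ i, hit (a i) →
      (fromEdgeSet (Phi (b, a))).Reachable (.inl i.castSucc) (.inl i.succ) := by
    rintro i ⟨l, h1, h2⟩
    exact (adjL i l h1).symm.reachable.trans (adjR i l h2).reachable
  have hubs : ∀ j : Fin (m + 1), (fromEdgeSet (Phi (b, a))).Reachable (.inl 0) (.inl j) := by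
    by_cases hall : ∀ i, hit (a i)
    · intro j
      induction j using Fin.induction with
      | zero => exact Reachable.refl _
      | succ i ih => exact ih.trans (step i (hall i))
    · push Not at hall
      obtain ⟨i0, hi0⟩ := hall
      have hb : b = true := by
        by_contra hb
        exact hi0 (h0 (by simpa using hb) i0)
      have hhit : ∀ i, i ≠ i0 → hit (a i) := by
        intro i hi
        by_contra hc
        exact hi (h1 hb i i0 hc hi0)
      have low : ∀ j : Fin (m + 1), (j : ℕ) ≤ i0 →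
          (fromEdgeSet (Phi (b, a))).Reachable (.inl 0) (.inl j) := by
        intro j
        induction j using Fin.induction with
        | zero => intro _; exact Reachable.refl _
        | succ i ih =>
          intro hj
          rw [Fin.val_succ] at hj
          have hne : i ≠ i0 := by
            rintro rfl; omega
          exact (ih (by rw [Fin.val_castSucc]; omega)).trans (step i (hhit i hne))
      have high : ∀ j : Fin (m + 1), (i0 : ℕ) < j →
          (fromEdgeSet (Phi (b, a))).Reachable (.inl (Fin.last m)) (.inl j) := by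
        intro j
        induction j using Fin.reverseInduction with
        | last => intro _; exact Reachable.refl _
        | cast i ih =>
          intro hj
          rw [Fin.val_castSucc] at hj
          have hne : i ≠ i0 := by
            rintro rfl; omega
          exact (ih (by rw [Fin.val_succ]; omega)).trans (step i (hhit i hne)).symm
      intro j
      by_cases hj : (j : ℕ) ≤ i0
      · exact low j hj
      · exact (adjE hb).reachable.trans (high j (by omega))
  have hall : ∀ v : VV m N, (fromEdgeSet (Phi (b, a))).Reachable (.inl 0) v := by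
    rintro (j | ⟨i, l⟩)
    · exact hubs j
    · rcases hn i l with h | h
      · exact (hubs _).trans (adjL i l h).symm.reachable
      · exact (hubs _).trans (adjR i l h).symm.reachable
  have : Nonempty (VV m N) := ⟨.inl 0⟩
  exact ⟨fun u v => (hall u).symm.trans (hall v)⟩


/-! ### Counting -/

open Classical in
/-- The number of the states without the closing edge that are connected and have `r` edges. -/
noncomputable def cB (m N r : ℕ) : ℕ :=
  (Finset.univ.filter (fun a : Fin m → Fin N → Bool × Bool => ok false a ∧ size a = r)).card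

open Classical in
/-- The number of the states with the closing edge that are connected and have `r` edges. -/
noncomputable def cA (m N r : ℕ) : ℕ :=
  (Finset.univ.filter (fun a : Fin m → Fin N → Bool × Bool => ok true a ∧ size a + 1 = r)).card

lemma card_VV : Fintype.card (VV m N) = m + 1 + m * N := by
  simp [VV]

lemma mem_conn (hm : 1 ≤ m) (r : ℕ) (x : Bool × (Fin m → Fin N → Bool × Bool)) :
    Phi x ∈ conn (neck m N) ((r : ℤ) - Fintype.card (VV m N)) ↔ ok x.1 x.2 ∧ x.1.toNat + size x.2 = r := by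
  unfold conn
  rw [Set.mem_ofPred_eq, neck_edgeSet hm, Phi_ncard]
  constructor
  · rintro ⟨-, h1, h2⟩
    refine ⟨conn_ok x h1, ?_⟩
    push_cast at h2 ⊢
    omega
  · rintro ⟨h1, h2⟩
    refine ⟨Set.image_subset_range _ _, ok_conn hm x h1, ?_⟩
    push_cast
    omega

lemma conn_eq (hm : 1 ≤ m) (r : ℕ) :
    conn (neck m N) ((r : ℤ) - Fintype.card (VV m N)) =
      Phi '' {x | ok x.1 x.2 ∧ x.1.toNat + size x.2 = r} := by
  ext F
  constructor
  · intro hF
    obtain ⟨x, rfl⟩ := Phi_surj F (by rw [← neck_edgeSet hm]; exact hF.1)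
    exact ⟨x, (mem_conn hm r x).1 hF, rfl⟩
  · rintro ⟨x, hx, rfl⟩
    exact (mem_conn hm r x).2 hx

lemma e_mem_iff (x : Bool × (Fin m → Fin N → Bool × Bool)) :
    ed m N none ∈ Phi x ↔ x.1 = true := by
  unfold Phi
  constructor
  · rintro ⟨i, hi, he⟩
    rw [ed_injective he] at hi
    exact hi
  · intro h
    exact ⟨none, h, rfl⟩

lemma conn_e_eq (hm : 1 ≤ m) (r : ℕ) :
    {F | F ∈ conn (neck m N) ((r : ℤ) - Fintype.card (VV m N)) ∧ ed m N none ∈ F} =
      Phi '' {x | x.1 = true ∧ ok x.1 x.2 ∧ x.1.toNat + size x.2 = r} := by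
  rw [conn_eq hm]
  ext F
  constructor
  · rintro ⟨⟨x, hx, rfl⟩, h⟩
    exact ⟨x, ⟨(e_mem_iff x).1 h, hx⟩, rfl⟩
  · rintro ⟨x, ⟨h, hx⟩, rfl⟩
    exact ⟨⟨x, hx, rfl⟩, (e_mem_iff x).2 h⟩

lemma ncard_e (hm : 1 ≤ m) (r : ℕ) :
    {F | F ∈ conn (neck m N) ((r : ℤ) - Fintype.card (VV m N)) ∧ ed m N none ∈ F}.ncard = cA m N r := by
  classical
  rw [conn_e_eq hm, Set.ncard_image_of_injective _ Phi_injective]
  have h1 : {x : Bool × (Fin m → Fin N → Bool × Bool) | x.1 = true ∧ ok x.1 x.2 ∧
      x.1.toNat + size x.2 = r} = (fun a => (true, a)) '' ((Finset.univ.filter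
        (fun a : Fin m → Fin N → Bool × Bool => ok true a ∧ size a + 1 = r) : Finset _) : Set _) := by
    ext ⟨b, a⟩
    simp only [Set.mem_ofPred_eq, Finset.coe_filter, Finset.mem_univ, true_and, Set.mem_image,
      Prod.mk.injEq, exists_eq_right_right]
    constructor
    · rintro ⟨rfl, h2, h3⟩
      refine ⟨⟨h2, ?_⟩, rfl⟩
      simp only [Bool.toNat_true] at h3
      omega
    · rintro ⟨⟨h2, h3⟩, rfl⟩
      refine ⟨rfl, h2, ?_⟩
      simp only [Bool.toNat_true]
      omega
  rw [h1, Set.ncard_image_of_injective _ (fun a a' h => (Prod.mk.inj h).2), Set.ncard_coe_finset]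
  rfl

lemma ncard_conn (hm : 1 ≤ m) (r : ℕ) :
    (conn (neck m N) ((r : ℤ) - Fintype.card (VV m N))).ncard = cA m N r + cB m N r := by
  classical
  rw [conn_eq hm, Set.ncard_image_of_injective _ Phi_injective]
  have h1 : {x : Bool × (Fin m → Fin N → Bool × Bool) | ok x.1 x.2 ∧ x.1.toNat + size x.2 = r} =
      ((fun a => (true, a)) '' ((Finset.univ.filter
        (fun a : Fin m → Fin N → Bool × Bool => ok true a ∧ size a + 1 = r) : Finset _) : Set _)) ∪
      ((fun a => (false, a)) '' ((Finset.univ.filter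
        (fun a : Fin m → Fin N → Bool × Bool => ok false a ∧ size a = r) : Finset _) : Set _)) := by
    ext ⟨b, a⟩
    simp only [Set.mem_ofPred_eq, Finset.coe_filter, Finset.mem_univ, true_and, Set.mem_image,
      Prod.mk.injEq, exists_eq_right_right, Set.mem_union]
    cases b
    · simp
    · simp [add_comm]
  rw [h1, Set.ncard_union_eq, Set.ncard_image_of_injective _ (fun a a' h => (Prod.mk.inj h).2),
    Set.ncard_image_of_injective _ (fun a a' h => (Prod.mk.inj h).2), Set.ncard_coe_finset,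
    Set.ncard_coe_finset]
  · rfl
  · rw [Set.disjoint_left]
    rintro _ ⟨a, -, rfl⟩ ⟨a', -, h⟩
    cases h

lemma marg_eq (hm : 1 ≤ m) (r : ℕ) :
    marg (neck m N) ((r : ℤ) - Fintype.card (VV m N)) (ed m N none) =
      (cA m N r : ℝ) / ((cA m N r : ℝ) + cB m N r) := by
  unfold marg
  rw [ncard_e hm, ncard_conn hm]
  push_cast
  rfl

/-! ### Generating functions -/

open Polynomial

/-- The weight of a pair of edges. -/
noncomputable def wt (t : Bool × Bool) : ℝ[X] :=
  if t.1 = true ∨ t.2 = true then X ^ (t.1.toNat + t.2.toNat) else 0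

/-- The weight of a block. -/
noncomputable def W (t : Fin N → Bool × Bool) : ℝ[X] := ∏ l, wt (t l)

open Classical in
/-- The weight of a block that is hit. -/
noncomputable def hw (t : Fin N → Bool × Bool) : ℝ[X] := if hit t then W t else 0

open Classical in
/-- The weight of a block that is not hit. -/
noncomputable def uw (t : Fin N → Bool × Bool) : ℝ[X] := if hit t then 0 else W t

lemma W_eq (t : Fin N → Bool × Bool) (h : ∀ l, (t l).1 = true ∨ (t l).2 = true) : W t = X ^ bsize t := by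
  unfold W bsize
  rw [← Finset.prod_pow_eq_pow_sum]
  refine Finset.prod_congr rfl fun l _ => ?_
  unfold wt
  rw [if_pos (h l)]

lemma W_zero (t : Fin N → Bool × Bool) (l : Fin N) (h : ¬ ((t l).1 = true ∨ (t l).2 = true)) : W t = 0 := by
  unfold W
  refine Finset.prod_eq_zero (Finset.mem_univ l) ?_
  unfold wt
  rw [if_neg h]

lemma sum_wt : ∑ t : Bool × Bool, wt t = 2 * X + X ^ 2 := by
  rw [Fintype.sum_prod_type]
  simp only [Fintype.sum_bool, wt]
  simp
  ring

lemma sum_W : ∑ t : Fin N → Bool × Bool, W t = (2 * X + X ^ 2) ^ N := by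
  unfold W
  rw [← Fintype.piFinset_univ, ← Finset.prod_univ_sum]
  simp [sum_wt]

lemma sum_uw : ∑ t : Fin N → Bool × Bool, uw t = (2 * X) ^ N := by
  classical
  have h1 : ∀ t : Fin N → Bool × Bool, uw t =
      ∏ l, (if (t l).1 = true ∧ (t l).2 = true then 0 else wt (t l)) := by
    intro t
    unfold uw
    split_ifs with h
    · obtain ⟨l, hl⟩ := h
      rw [Finset.prod_eq_zero (Finset.mem_univ l)]
      rw [if_pos hl]
    · unfold W
      refine Finset.prod_congr rfl fun l _ => ?_
      rw [if_neg (fun hl => h ⟨l, hl⟩)]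
  simp_rw [h1]
  rw [← Fintype.piFinset_univ, ← Finset.prod_univ_sum (fun _ : Fin N => Finset.univ)
    (fun _ t => if t.1 = true ∧ t.2 = true then (0 : ℝ[X]) else wt t)]
  have h2 : ∑ t : Bool × Bool, (if t.1 = true ∧ t.2 = true then (0 : ℝ[X]) else wt t) = 2 * X := by
    rw [Fintype.sum_prod_type]
    simp only [Fintype.sum_bool, wt]
    simp
    ring
  rw [h2]
  simp

/-- The generating function of the connected blocks. -/
noncomputable def HH (N : ℕ) : ℝ[X] := (2 * X + X ^ 2) ^ N - (2 * X) ^ N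

lemma sum_hw : ∑ t : Fin N → Bool × Bool, hw t = HH N := by
  unfold HH
  rw [← sum_W, ← sum_uw, ← Finset.sum_sub_distrib]
  refine Finset.sum_congr rfl fun t _ => ?_
  unfold hw uw
  split_ifs <;> simp

lemma prod_W (a : Fin m → Fin N → Bool × Bool) (h : ∀ i l, (a i l).1 = true ∨ (a i l).2 = true) :
    ∏ i, W (a i) = X ^ size a := by
  unfold size
  rw [← Finset.prod_pow_eq_pow_sum]
  exact Finset.prod_congr rfl fun i _ => W_eq _ (h i)

open Classical in
lemma ind_false (a : Fin m → Fin N → Bool × Bool) :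
    (if ok false a then (X : ℝ[X]) ^ size a else 0) = ∏ i, hw (a i) := by
  split_ifs with h
  · obtain ⟨h1, -, h2⟩ := h
    rw [← prod_W a h1]
    refine Finset.prod_congr rfl fun i _ => ?_
    unfold hw
    rw [if_pos (h2 rfl i)]
  · symm
    by_cases h1 : ∀ i l, (a i l).1 = true ∨ (a i l).2 = true
    · have h2 : ∃ i, ¬ hit (a i) := by
        by_contra hcon
        push Not at hcon
        exact h ⟨h1, by simp, fun _ => hcon⟩
      obtain ⟨i, hi⟩ := h2
      refine Finset.prod_eq_zero (Finset.mem_univ i) ?_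
      unfold hw
      rw [if_neg hi]
    · push Not at h1
      obtain ⟨i, l, hl⟩ := h1
      refine Finset.prod_eq_zero (Finset.mem_univ i) ?_
      unfold hw
      rw [W_zero (a i) l (by simpa using hl)]
      simp

open Classical in
lemma ind_true (a : Fin m → Fin N → Bool × Bool) :
    (if ok true a then (X : ℝ[X]) ^ size a else 0) =
      ∏ i, hw (a i) + ∑ i, ∏ j, (if j = i then uw (a j) else hw (a j)) := by
  by_cases h1 : ∀ i l, (a i l).1 = true ∨ (a i l).2 = true
  · by_cases h2 : ∀ i, hit (a i)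
    · have h3 : ok true a := ⟨h1, fun _ i j hi _ => absurd (h2 i) hi, by simp⟩
      rw [if_pos h3, ← prod_W a h1]
      have h4 : ∏ i, hw (a i) = ∏ i, W (a i) := by
        refine Finset.prod_congr rfl fun i _ => ?_
        unfold hw
        rw [if_pos (h2 i)]
      have h5 : ∑ i, ∏ j, (if j = i then uw (a j) else hw (a j)) = 0 := by
        refine Finset.sum_eq_zero fun i _ => Finset.prod_eq_zero (Finset.mem_univ i) ?_
        rw [if_pos rfl]
        unfold uw
        rw [if_pos (h2 i)]
      rw [h4, h5, add_zero]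
    · push Not at h2
      obtain ⟨i0, hi0⟩ := h2
      have h4 : ∏ i, hw (a i) = 0 := by
        refine Finset.prod_eq_zero (Finset.mem_univ i0) ?_
        unfold hw
        rw [if_neg hi0]
      have h6 : ∀ i ≠ i0, ∏ j, (if j = i then uw (a j) else hw (a j)) = 0 := by
        intro i hi
        refine Finset.prod_eq_zero (Finset.mem_univ i0) ?_
        rw [if_neg hi.symm]
        unfold hw
        rw [if_neg hi0]
      rw [h4, zero_add, Finset.sum_eq_single i0 (fun i _ hi => h6 i hi) (by simp)]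
      by_cases h5 : ∀ i, i ≠ i0 → hit (a i)
      · have h3 : ok true a := by
          refine ⟨h1, fun _ i j hi hj => ?_, by simp⟩
          rw [not_imp_comm.1 (h5 i) hi, not_imp_comm.1 (h5 j) hj]
        rw [if_pos h3, ← prod_W a h1]
        refine Finset.prod_congr rfl fun i _ => ?_
        split_ifs with hi
        · unfold uw
          rw [hi, if_neg hi0]
        · unfold hw
          rw [if_pos (h5 i hi)]
      · push Not at h5
        obtain ⟨i1, h7, h8⟩ := h5
        have h3 : ¬ ok true a := fun h => h7 (h.2.1 rfl i1 i0 h8 hi0)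
        rw [if_neg h3]
        symm
        refine Finset.prod_eq_zero (Finset.mem_univ i1) ?_
        rw [if_neg h7]
        unfold hw
        rw [if_neg h8]
  · have h3 : ¬ ok true a := fun h => h1 h.1
    rw [if_neg h3]
    push Not at h1
    obtain ⟨i0, l, hl⟩ := h1
    have h4 := W_zero (a i0) l (by simpa using hl)
    have h5 : hw (a i0) = 0 := by unfold hw; rw [h4]; simp
    have h6 : uw (a i0) = 0 := by unfold uw; rw [h4]; simp
    rw [Finset.prod_eq_zero (Finset.mem_univ i0) h5, Finset.sum_eq_zero, add_zero]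
    intro i _
    refine Finset.prod_eq_zero (Finset.mem_univ i0) ?_
    rw [h5, h6]
    simp

open Classical in
lemma gen_false : ∑ a : Fin m → Fin N → Bool × Bool, (if ok false a then (X : ℝ[X]) ^ size a else 0) =
    HH N ^ m := by
  simp_rw [ind_false]
  rw [← Fintype.piFinset_univ, ← Finset.prod_univ_sum (fun _ : Fin m => Finset.univ) (fun _ t => hw t)]
  simp [sum_hw]

open Classical in
lemma gen_true : ∑ a : Fin m → Fin N → Bool × Bool, (if ok true a then (X : ℝ[X]) ^ size a else 0) =
    HH N ^ m + (m : ℝ[X]) * (2 * X) ^ N * HH N ^ (m - 1) := by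
  simp_rw [ind_true]
  rw [Finset.sum_add_distrib]
  congr 1
  · rw [← Fintype.piFinset_univ, ← Finset.prod_univ_sum (fun _ : Fin m => Finset.univ) (fun _ t => hw t)]
    simp [sum_hw]
  · rw [Finset.sum_comm]
    have h1 : ∀ i : Fin m, ∑ a : Fin m → Fin N → Bool × Bool,
        ∏ j, (if j = i then uw (a j) else hw (a j)) = (2 * X) ^ N * HH N ^ (m - 1) := by
      intro i
      rw [← Fintype.piFinset_univ, ← Finset.prod_univ_sum (fun _ : Fin m => Finset.univ)
        (fun j t => if j = i then uw t else hw t)]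
      rw [← Finset.mul_prod_erase _ _ (Finset.mem_univ i)]
      congr 1
      · simp [sum_uw]
      · rw [Finset.prod_congr rfl (g := fun _ => HH N)]
        · simp
        · intro j hj
          simp [Finset.ne_of_mem_erase hj, sum_hw]
    simp_rw [h1]
    rw [Finset.sum_const, Finset.card_univ, Fintype.card_fin, nsmul_eq_mul]
    ring

lemma coeff_B (r : ℕ) : (HH N ^ m).coeff r = (cB m N r : ℝ) := by
  classical
  rw [← gen_false, finsetSum_coeff]
  unfold cB
  rw [Finset.card_filter]
  push_cast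
  refine Finset.sum_congr rfl fun a _ => ?_
  by_cases h : ok false a
  · rw [if_pos h, coeff_X_pow]
    by_cases h2 : size a = r
    · rw [if_pos h2.symm, if_pos ⟨h, h2⟩]
    · rw [if_neg (Ne.symm h2), if_neg (fun h3 => h2 h3.2)]
  · rw [if_neg h, if_neg (fun h3 => h h3.1)]
    simp

lemma coeff_A (r : ℕ) : (X * (HH N ^ m + (m : ℝ[X]) * (2 * X) ^ N * HH N ^ (m - 1))).coeff r = (cA m N r : ℝ) := by
  classical
  rw [← gen_true, Finset.mul_sum, finsetSum_coeff]
  unfold cA
  rw [Finset.card_filter]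
  push_cast
  refine Finset.sum_congr rfl fun a _ => ?_
  by_cases h : ok true a
  · rw [if_pos h, ← pow_succ', coeff_X_pow]
    by_cases h2 : size a + 1 = r
    · rw [if_pos h2.symm, if_pos ⟨h, h2⟩]
    · rw [if_neg (Ne.symm h2), if_neg (fun h3 => h2 h3.2)]
  · rw [if_neg h, if_neg (fun h3 => h h3.1)]
    simp

/-! ### The necklace as a graph -/

lemma neck_ncard (hm : 1 ≤ m) : (neck m N).edgeSet.ncard = 1 + m * N * 2 := by
  rw [neck_edgeSet hm, ← Set.image_univ, Set.ncard_image_of_injective _ ed_injective, Set.ncard_univ,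
    Nat.card_eq_fintype_card]
  simp [II]
  ring

lemma neck_connected (hm : 1 ≤ m) (hN : 1 ≤ N) : (neck m N).Connected := by
  have h := ok_conn hm (N := N) (true, fun _ _ => (true, true)) (by
    refine ⟨fun _ _ => Or.inl rfl, fun _ i j hi _ => ?_, by simp⟩
    exact absurd ⟨⟨0, hN⟩, rfl, rfl⟩ hi)
  have h1 : Phi (m := m) (N := N) (true, fun _ _ => (true, true)) = Set.range (ed m N) := by
    unfold Phi
    have : {i : II m N | on true (fun _ _ => (true, true)) i = true} = Set.univ := by
      ext i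
      rcases i with _ | ⟨⟨i, l⟩, (_ | _)⟩ <;> simp [on]
    rw [this, Set.image_univ]
  rw [h1] at h
  exact h

lemma e_mem (hm : 1 ≤ m) : ed m N none ∈ (neck m N).edgeSet := by
  rw [neck_edgeSet hm]
  exact ⟨none, rfl⟩

lemma conn_nonempty (hm : 1 ≤ m) (r : ℕ) (h : 0 < cB m N r) :
    (conn (neck m N) ((r : ℤ) - Fintype.card (VV m N))).Nonempty := by
  rw [← Set.ncard_pos (Set.toFinite _), ncard_conn hm]
  omega

lemma le_of_nonempty {V : Type} [Fintype V] (G : SimpleGraph V) (k : ℤ) (h : (conn G k).Nonempty) :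
    k ≤ (G.edgeSet.ncard : ℤ) - Fintype.card V := by
  obtain ⟨F, hF, -, h2⟩ := h
  have h3 := Set.ncard_le_ncard hF (Set.toFinite _)
  have h4 : (F.ncard : ℤ) ≤ G.edgeSet.ncard := by exact_mod_cast h3
  omega

/-! ### The large drop -/

/-- `((2 + X) ^ N - 2 ^ N) / X`. -/
noncomputable def QQ (N : ℕ) : ℝ[X] := ∑ i ∈ Finset.range N, (2 + X) ^ i * 2 ^ (N - 1 - i)

lemma HH_eq (N : ℕ) : HH N = X ^ (N + 1) * QQ N := by
  have h := (Commute.all (2 + X : ℝ[X]) 2).geom_sum₂_mul N
  have h2 : (2 + X : ℝ[X]) - 2 = X := by ring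
  rw [h2] at h
  unfold HH QQ
  have h3 : (2 * X + X ^ 2 : ℝ[X]) = X * (2 + X) := by ring
  have h4 : (2 * X : ℝ[X]) = X * 2 := by ring
  rw [h3, h4, mul_pow, mul_pow, ← mul_sub, ← h]
  ring

lemma QQ_zero (N : ℕ) : (QQ N).coeff 0 = N * 2 ^ (N - 1) := by
  rw [coeff_zero_eq_eval_zero]
  unfold QQ
  rw [eval_finsetSum]
  have h : ∀ i ∈ Finset.range N, eval 0 ((2 + X : ℝ[X]) ^ i * 2 ^ (N - 1 - i)) = 2 ^ (N - 1) := by
    intro i hi
    have hi' := Finset.mem_range.1 hi
    simp only [eval_mul, eval_pow, eval_add, eval_ofNat, eval_X, add_zero]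
    rw [← pow_add]
    congr 1
    omega
  rw [Finset.sum_congr rfl h]
  simp

lemma polyB (m N : ℕ) : HH N ^ m = X ^ (m * (N + 1)) * QQ N ^ m := by
  rw [HH_eq, mul_pow, ← pow_mul, mul_comm (N + 1) m]

lemma polyA (hm : 1 ≤ m) : X * (HH N ^ m + (m : ℝ[X]) * (2 * X) ^ N * HH N ^ (m - 1)) =
    X ^ (m * (N + 1)) * (X * QQ N ^ m + (m : ℝ[X]) * 2 ^ N * QQ N ^ (m - 1)) := by
  obtain ⟨t, rfl⟩ : ∃ t, m = t + 1 := ⟨m - 1, by omega⟩
  rw [polyB, Nat.add_sub_cancel, polyB]
  have h : (X : ℝ[X]) ^ ((t + 1) * (N + 1)) = X ^ (t * (N + 1)) * X ^ N * X := by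
    rw [← pow_add, ← pow_succ]
    congr 1
    ring
  rw [h, mul_pow]
  ring

lemma cB_zero (r : ℕ) (h : r < m * (N + 1)) : cB m N r = 0 := by
  have h1 := coeff_B (m := m) (N := N) r
  rw [polyB, coeff_X_pow_mul', if_neg (by omega)] at h1
  exact_mod_cast h1.symm

lemma cB_tree (m N : ℕ) : (cB m N (m * (N + 1)) : ℝ) = (N * 2 ^ (N - 1)) ^ m := by
  rw [← coeff_B, polyB, coeff_X_pow_mul', if_pos le_rfl, Nat.sub_self, coeff_zero_eq_eval_zero, eval_pow,
    ← coeff_zero_eq_eval_zero, QQ_zero]

lemma cA_tree (hm : 1 ≤ m) : (cA m N (m * (N + 1)) : ℝ) = m * 2 ^ N * (N * 2 ^ (N - 1)) ^ (m - 1) := by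
  rw [← coeff_A, polyA hm, coeff_X_pow_mul', if_pos le_rfl, Nat.sub_self, coeff_zero_eq_eval_zero]
  simp only [eval_add, eval_mul, eval_X, zero_mul, zero_add, eval_natCast, eval_pow, eval_ofNat]
  rw [← coeff_zero_eq_eval_zero, QQ_zero]

lemma marg_tree (hm : 1 ≤ m) (hN : 1 ≤ N) :
    marg (neck m N) (-1) (ed m N none) = 2 * m / (N + 2 * m) := by
  have h := marg_eq (N := N) hm (m * (N + 1))
  have h1 : ((m * (N + 1) : ℕ) : ℤ) - Fintype.card (VV m N) = -1 := by
    rw [card_VV]; push_cast; ring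
  rw [h1] at h
  rw [h, cB_tree, cA_tree hm]
  obtain ⟨t, rfl⟩ : ∃ t, m = t + 1 := ⟨m - 1, by omega⟩
  obtain ⟨n, rfl⟩ : ∃ n, N = n + 1 := ⟨N - 1, by omega⟩
  simp only [Nat.add_sub_cancel]
  have h2 : (0 : ℝ) < (((n + 1 : ℕ) : ℝ) * 2 ^ n) := by positivity
  set q : ℝ := ((n + 1 : ℕ) : ℝ) * 2 ^ n with hq
  rw [div_eq_div_iff (by positivity) (by positivity)]
  rw [pow_succ q t, pow_succ (2 : ℝ) n, hq]
  push_cast
  ring

lemma eval_nonneg (P : ℝ[X]) (h : ∀ r, 0 ≤ P.coeff r) (x : ℝ) (hx : 0 ≤ x) : 0 ≤ P.eval x := by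
  rw [eval_eq_sum_range]
  exact Finset.sum_nonneg fun i _ => mul_nonneg (h i) (pow_nonneg hx i)

lemma exists_small (hm : 1 ≤ m) (ε : ℝ) (hε : 0 < ε) (hN : (m : ℝ) + 1 < (1 + ε / 4) ^ N) :
    ∃ r, (cA m N r : ℝ) < ε * cB m N r := by
  by_contra hcon
  push Not at hcon
  have h := eval_nonneg (X * (HH N ^ m + (m : ℝ[X]) * (2 * X) ^ N * HH N ^ (m - 1)) - C ε * HH N ^ m)
    (by
      intro r
      rw [coeff_sub, coeff_A, coeff_C_mul, coeff_B]
      linarith [hcon r]) (ε / 2) (by positivity)
  obtain ⟨t, rfl⟩ : ∃ t, m = t + 1 := ⟨m - 1, by omega⟩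
  simp only [Nat.add_sub_cancel, eval_sub, eval_mul, eval_add, eval_pow, eval_X, eval_natCast, eval_ofNat,
    eval_C] at h
  set D : ℝ := eval (ε / 2) (HH N) with hD
  have h1 : D = (2 * (ε / 2)) ^ N * ((1 + ε / 4) ^ N - 1) := by
    rw [hD]
    unfold HH
    simp only [eval_sub, eval_mul, eval_add, eval_pow, eval_X, eval_ofNat]
    rw [mul_sub, ← mul_pow, mul_one]
    congr 2
    ring
  have h2 : (0 : ℝ) < (2 * (ε / 2)) ^ N := by positivity
  have h3 : ((t + 1 : ℕ) : ℝ) * (2 * (ε / 2)) ^ N < D := by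
    rw [h1, mul_comm]
    exact mul_lt_mul_of_pos_left (by linarith) h2
  have h4 : 0 < D := lt_of_le_of_lt (by positivity) h3
  have h5 : ε / 2 * (D ^ (t + 1) + ((t + 1 : ℕ) : ℝ) * (2 * (ε / 2)) ^ N * D ^ t) - ε * D ^ (t + 1) =
      ε / 2 * D ^ t * (((t + 1 : ℕ) : ℝ) * (2 * (ε / 2)) ^ N - D) := by
    rw [pow_succ]; ring
  rw [h5] at h
  have h6 : ε / 2 * D ^ t * (((t + 1 : ℕ) : ℝ) * (2 * (ε / 2)) ^ N - D) < 0 :=
    mul_neg_of_pos_of_neg (by positivity) (by linarith)
  linarith

lemma exists_N (M : ℕ) (δ : ℝ) (hδ : 0 < δ) :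
    ∃ N : ℕ, 1 ≤ N ∧ ((N * M : ℕ) : ℝ) + 1 < (1 + δ) ^ N := by
  obtain ⟨n, hn⟩ := exists_nat_gt ((2 * M + 1) / δ ^ 2 + 1)
  have hn1 : (1 : ℝ) < n := by
    have : (0 : ℝ) ≤ (2 * M + 1) / δ ^ 2 := by positivity
    linarith
  have hn2 : (2 * M + 1) / δ ^ 2 < n := by linarith
  rw [div_lt_iff₀ (by positivity)] at hn2
  refine ⟨2 * n, ?_, ?_⟩
  · have : 1 < n := by exact_mod_cast hn1
    omega
  · have h1 : 1 + (n : ℝ) * δ ≤ (1 + δ) ^ n := one_add_mul_le_pow (by linarith) n
    have h2 : (1 + δ) ^ (2 * n) = ((1 + δ) ^ n) ^ 2 := by rw [← pow_mul, mul_comm]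
    rw [h2]
    have h3 : (1 + (n : ℝ) * δ) ^ 2 ≤ ((1 + δ) ^ n) ^ 2 := by
      apply pow_le_pow_left₀ (by positivity) h1
    refine lt_of_lt_of_le ?_ h3
    push_cast
    have h4 : (n : ℝ) * (2 * M + 1) < n * (n * δ ^ 2) := mul_lt_mul_of_pos_left hn2 (by linarith)
    have h5 : 0 < (n : ℝ) * δ := by positivity
    nlinarith

theorem drop (ε : ℝ) (hε : 0 < ε) : ∃ (V : Type) (_ : Fintype V) (G : SimpleGraph V) (e : Sym2 V) (k : ℤ),
    G.Connected ∧ e ∈ G.edgeSet ∧ -1 ≤ k ∧ k ≤ (G.edgeSet.ncard : ℤ) - Fintype.card V ∧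
    1 - ε < marg G (-1) e ∧ marg G k e < ε := by
  obtain ⟨M, hM⟩ := exists_nat_gt (1 / ε)
  have hM0 : (0 : ℝ) < M := lt_trans (by positivity) hM
  have hM1 : 1 ≤ M := by
    have : 0 < M := by exact_mod_cast hM0
    omega
  obtain ⟨N, hN, hNM⟩ := exists_N M (ε / 4) (by positivity)
  have hm : 1 ≤ N * M := Nat.mul_pos hN hM1
  obtain ⟨r, hr⟩ := exists_small (m := N * M) hm ε hε hNM
  have hB : 0 < cB (N * M) N r := by
    by_contra hc
    have h0 : cB (N * M) N r = 0 := by omega
    rw [h0] at hr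
    have : (0 : ℝ) ≤ cA (N * M) N r := Nat.cast_nonneg _
    simp at hr
    linarith
  have hBR : (0 : ℝ) < cB (N * M) N r := by exact_mod_cast hB
  have hge : N * M * (N + 1) ≤ r := by
    by_contra hc
    rw [cB_zero r (by omega)] at hB
    exact lt_irrefl _ hB
  refine ⟨VV (N * M) N, inferInstance, neck (N * M) N, ed (N * M) N none,
    (r : ℤ) - Fintype.card (VV (N * M) N), neck_connected hm hN, e_mem hm, ?_,
    le_of_nonempty _ _ (conn_nonempty hm r hB), ?_, ?_⟩
  · rw [card_VV]
    have : ((N * M * (N + 1) : ℕ) : ℤ) ≤ r := by exact_mod_cast hge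
    push_cast at this ⊢
    nlinarith
  · rw [marg_tree hm hN]
    push_cast
    have hN0 : (0 : ℝ) < N := by exact_mod_cast hN
    rw [lt_div_iff₀ (by positivity)]
    rw [div_lt_iff₀ hε] at hM
    nlinarith [mul_pos hN0 hM0, mul_pos (mul_pos hN0 hM0) hε, mul_pos hN0 hε]
  · rw [marg_eq hm]
    have hA : (0 : ℝ) ≤ cA (N * M) N r := Nat.cast_nonneg _
    rw [div_lt_iff₀ (by linarith)]
    nlinarith

/-! ### Long decreasing stretches -/

lemma HH_two : HH 2 = X ^ 3 * (X + C 4) := by
  unfold HH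
  have : (C 4 : ℝ[X]) = 4 := rfl
  rw [this]
  ring

lemma cB_two (m j : ℕ) : (cB m 2 (3 * m + j) : ℝ) = 4 ^ (m - j) * m.choose j := by
  rw [← coeff_B, HH_two, mul_pow, ← pow_mul, coeff_X_pow_mul', if_pos (by omega), Nat.add_sub_cancel_left,
    coeff_X_add_C_pow]

lemma cA_two (hm : 1 ≤ m) (j : ℕ) (hj : j ≤ m) :
    (cA m 2 (3 * m + j) : ℝ) * (m - j + 1) = ((m - j) * (m - j + 1) + 4 * j) * cB m 2 (3 * m + j) := by
  obtain ⟨t, rfl⟩ : ∃ t, m = t + 1 := ⟨m - 1, by omega⟩
  rw [cB_two, ← coeff_A, HH_two]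
  have h1 : (X : ℝ[X]) * ((X ^ 3 * (X + C 4)) ^ (t + 1) + ((t + 1 : ℕ) : ℝ[X]) * (2 * X) ^ 2 *
      (X ^ 3 * (X + C 4)) ^ (t + 1 - 1)) =
      X ^ (3 * (t + 1)) * (X * (X + C 4) ^ (t + 1) + C (4 * ((t + 1 : ℕ) : ℝ)) * (X + C 4) ^ t) := by
    rw [Nat.add_sub_cancel, C_mul, C_eq_natCast]
    have : (C 4 : ℝ[X]) = 4 := rfl
    rw [this, mul_pow (X ^ 3 : ℝ[X]) (X + 4) (t + 1), mul_pow (X ^ 3 : ℝ[X]) (X + 4) t, ← pow_mul, ← pow_mul]
    ring
  rw [h1, coeff_X_pow_mul', if_pos (by omega), Nat.add_sub_cancel_left, coeff_add, coeff_C_mul,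
    coeff_X_add_C_pow]
  have hc1 : (((t + 1 : ℕ) : ℝ) * (t.choose j : ℝ)) = ((t + 1).choose j : ℝ) * ((t + 1 : ℕ) - j) := by
    have h := Nat.add_one_mul_choose_eq t j
    have h' := Nat.choose_succ_right_eq (t + 1) j
    have h3 : (t + 1) * t.choose j = (t + 1).choose j * (t + 1 - j) := by
      rw [h, h']
    have h4 : (((t + 1) * t.choose j : ℕ) : ℝ) = (((t + 1).choose j * (t + 1 - j) : ℕ) : ℝ) := by
      rw [h3]
    rw [Nat.cast_mul, Nat.cast_mul, Nat.cast_sub hj] at h4
    exact h4
  rcases j with _ | i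
  · simp only [coeff_X_mul_zero, Nat.choose_zero_right, Nat.sub_zero, Nat.cast_one, Nat.cast_zero]
    rw [pow_succ]
    push_cast
    ring
  · rw [coeff_X_mul, coeff_X_add_C_pow]
    have hc2 : (((t + 1).choose i : ℝ)) * (((t + 1 : ℕ) : ℝ) - i) = ((t + 1).choose (i + 1) : ℝ) * (i + 1) := by
      have h' := Nat.choose_succ_right_eq (t + 1) i
      have h4 : (((t + 1).choose (i + 1) * (i + 1) : ℕ) : ℝ) = (((t + 1).choose i * (t + 1 - i) : ℕ) : ℝ) := by
        rw [h']
      rw [Nat.cast_mul, Nat.cast_mul, Nat.cast_sub (by omega)] at h4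
      push_cast at h4 ⊢
      linarith
    rcases Nat.lt_or_ge i t with hi | hi
    · obtain ⟨d, rfl⟩ : ∃ d, t = i + 1 + d := ⟨t - (i + 1), by omega⟩
      have e1 : i + 1 + d + 1 - (i + 1) = d + 1 := by omega
      have e2 : i + 1 + d - (i + 1) = d := by omega
      have e3 : i + 1 + d + 1 - i = d + 2 := by omega
      rw [e1, e2, e3]
      push_cast at hc1 hc2 ⊢
      have p1 : (4 : ℝ) ^ (d + 2) = 16 * 4 ^ d := by ring
      have p2 : (4 : ℝ) ^ (d + 1) = 4 * 4 ^ d := by ring
      rw [p1, p2]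
      linear_combination (4 ^ d * 16 : ℝ) * hc2 + (4 ^ d * 4 * (d + 2) : ℝ) * hc1
    · have hit : i = t := by omega
      subst hit
      have e1 : i + 1 - (i + 1) = 0 := by omega
      have e2 : i - (i + 1) = 0 := by omega
      have e3 : i + 1 - i = 1 := by omega
      rw [e1, e2, e3]
      push_cast at hc1 hc2 ⊢
      simp only [Nat.choose_self, Nat.choose_succ_self] at hc1 hc2 ⊢
      push_cast at hc1 hc2 ⊢
      linear_combination (4 : ℝ) * hc2

lemma marg_two (hm : 1 ≤ m) (j : ℕ) (hj : j ≤ m) :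
    marg (neck m 2) ((j : ℤ) - 1) (ed m 2 none) =
      1 - 1 / (1 + ((m - j : ℝ) + 4 * j / (m - j + 1))) := by
  have h := marg_eq (N := 2) hm (3 * m + j)
  have h1 : ((3 * m + j : ℕ) : ℤ) - Fintype.card (VV m 2) = (j : ℤ) - 1 := by
    rw [card_VV]; push_cast; ring
  rw [h1] at h
  rw [h]
  have hjr : (j : ℝ) ≤ m := by exact_mod_cast hj
  have hB : (0 : ℝ) < cB m 2 (3 * m + j) := by
    rw [cB_two]
    have : 0 < m.choose j := Nat.choose_pos hj
    positivity
  have hd : (0 : ℝ) < m - j + 1 := by linarith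
  have hA : (cA m 2 (3 * m + j) : ℝ) = ((m - j : ℝ) + 4 * j / (m - j + 1)) * cB m 2 (3 * m + j) := by
    have h2 := cA_two hm j hj
    field_simp
    linarith
  rw [hA]
  have ho : (0 : ℝ) ≤ (m - j : ℝ) + 4 * j / (m - j + 1) := by
    have : (0 : ℝ) ≤ 4 * j / (m - j + 1) := by positivity
    linarith
  generalize (m - j : ℝ) + 4 * j / (m - j + 1) = o at ho
  field_simp
  ring

theorem decreasing (hm : 1 ≤ m) (k : ℤ) (hk : -1 ≤ k) (hk2 : (k : ℝ) + 1 + 2 * √((m : ℝ) + 1) ≤ m) :
    marg (neck m 2) (k + 1) (ed m 2 none) < marg (neck m 2) k (ed m 2 none) := by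
  obtain ⟨j, hj⟩ := Int.eq_ofNat_of_zero_le (show 0 ≤ k + 1 by omega)
  have hkj : k = (j : ℤ) - 1 := by omega
  subst hkj
  have hs : (0 : ℝ) < √((m : ℝ) + 1) := Real.sqrt_pos.2 (by positivity)
  have hss : √((m : ℝ) + 1) ^ 2 = m + 1 := Real.sq_sqrt (by positivity)
  push_cast at hk2
  have hm1 : (1 : ℝ) ≤ m := by exact_mod_cast hm
  have hs1 : (1 : ℝ) ≤ √((m : ℝ) + 1) := by
    rw [Real.one_le_sqrt]; linarith
  have hjm : (j : ℝ) + 1 < m := by linarith
  have hjm' : j + 1 < m := by exact_mod_cast hjm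
  have h1 := marg_two hm j (by omega)
  have h2 := marg_two hm (j + 1) (by omega)
  have e1 : ((j + 1 : ℕ) : ℤ) - 1 = (j : ℤ) - 1 + 1 := by push_cast; ring
  rw [e1] at h2
  rw [h1, h2]
  push_cast
  have hu : (0 : ℝ) < m - j := by linarith
  have hd : (0 : ℝ) < m - (j + 1) + 1 := by linarith
  have ho2 : (0 : ℝ) ≤ (m - (j + 1) : ℝ) + 4 * (j + 1) / (m - (j + 1) + 1) := by
    have : (0 : ℝ) ≤ 4 * ((j : ℝ) + 1) / (m - (j + 1) + 1) := by positivity
    linarith
  have key : (m - (j + 1) : ℝ) + 4 * (j + 1) / (m - (j + 1) + 1) < (m - j : ℝ) + 4 * j / (m - j + 1) := by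
    have e2 : (m : ℝ) - (j + 1) + 1 = m - j := by ring
    rw [e2]
    have h3 : (4 * ((j : ℝ) + 1)) / (m - j) - 4 * j / (m - j + 1) = 4 * (m + 1) / ((m - j) * (m - j + 1)) := by
      field_simp
      ring
    have h4 : 4 * ((m : ℝ) + 1) / ((m - j) * (m - j + 1)) < 1 := by
      rw [div_lt_one (by positivity)]
      have h5 : 2 * √((m : ℝ) + 1) ≤ m - j := by linarith
      nlinarith
    linarith
  have h6 : 1 / (1 + ((m - j : ℝ) + 4 * j / (m - j + 1))) <
      1 / (1 + ((m - (j + 1) : ℝ) + 4 * (j + 1) / (m - (j + 1) + 1))) :=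
    one_div_lt_one_div_of_lt (by linarith) (by linarith)
  linarith

end Pool.Agent.H74.Neck
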